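import Mathlib

namespace Pool.Agent.H.MP_a7cd30_an

open MeasureTheory Set Filter Topology
open scoped RealInnerProductSpace

/-- Lebesgue measure on the unit interval -/
noncomputable abbrev mu : Measure ℝ := volume.restrict (Set.Icc (0 : ℝ) 1)

instance : IsProbabilityMeasure mu := ⟨by simp⟩

/-- the automorphisms -/
abbrev G := {e : ℝ ≃ᵐ ℝ // MeasurePreserving (⇑e) mu mu}

/-- square integrable functions -/
noncomputable abbrev H := Lp ℝ 2 mu

theorem ae_unit : ∀ᵐ x ∂mu, x ∈ Icc (0 : ℝ) 1 := ae_restrict_mem measurableSet_Icc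

theorem memLp_id : MemLp (id : ℝ → ℝ) 2 mu :=
  MemLp.of_bound measurable_id.aestronglyMeasurable 1 (ae_unit.mono fun x hx => by
    rw [id, Real.norm_eq_abs, abs_le]; constructor <;> linarith [hx.1, hx.2])

/-- the identity function -/
noncomputable def idL : H := memLp_id.toLp id

/-- Koopman operator -/
noncomputable def koop (f : ℝ → ℝ) (hf : MeasurePreserving f mu mu) : H →ₗᵢ[ℝ] H :=
  Lp.compMeasurePreservingₗᵢ ℝ f hf

theorem koop_ae {f : ℝ → ℝ} (hf : MeasurePreserving f mu mu) (v : H) {g : ℝ → ℝ}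
    (hg : v =ᵐ[mu] g) : koop f hf v =ᵐ[mu] g ∘ f :=
  (Lp.coeFn_compMeasurePreserving v hf).trans (hf.quasiMeasurePreserving.ae_eq_comp hg)

theorem koop_id {f : ℝ → ℝ} (hf : MeasurePreserving f mu mu) : koop f hf idL =ᵐ[mu] f :=
  koop_ae hf idL memLp_id.coeFn_toLp

theorem koop_inv (S : G) (v : H) : koop S.1 S.2 (koop S.1.symm (S.2.symm S.1) v) = v := by
  refine Lp.ext ((koop_ae S.2 _ (koop_ae (S.2.symm S.1) v (ae_eq_refl _))).trans ?_)
  refine Eventually.of_forall fun x => ?_
  simp

theorem realize {f g : ℝ → ℝ} (hf : MeasurePreserving f mu mu) (hg : Measurable g)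
    (hgf : ∀ᵐ x ∂mu, g (f x) = x) : ∃ e : G, ⇑e.1 =ᵐ[mu] f ∧ ⇑e.1.symm =ᵐ[mu] g := by
  classical
  have hg' : MeasurePreserving g mu mu := by
    refine ⟨hg, ?_⟩
    conv_lhs => rw [← hf.map_eq]
    rw [Measure.map_map hg hf.measurable, Measure.map_congr (f := g ∘ f) (g := id) hgf, Measure.map_id]
  have hm1 : MeasurableSet {x | g (f x) = x} :=
    measurableSet_eq_fun (hg.comp hf.measurable) measurable_id
  have hm2 : MeasurableSet {x | f (g x) = x} :=
    measurableSet_eq_fun (hf.measurable.comp hg) measurable_id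
  have hfg : ∀ᵐ y ∂mu, f (g y) = y := by
    rw [← hf.map_eq, ae_map_iff hf.measurable.aemeasurable hm2]
    filter_upwards [hgf] with x hx
    rw [hx]
  let A : Set ℝ := {x | g (f x) = x} ∩ {x | f (g x) = x}
  have hA : MeasurableSet A := hm1.inter hm2
  have hAae : ∀ᵐ x ∂mu, x ∈ A := hgf.and hfg
  let B : Set ℝ := {x | ∀ n m : ℕ, f^[n] (g^[m] x) ∈ A}
  have hB : MeasurableSet B := by
    have : B = ⋂ n : ℕ, ⋂ m : ℕ, (f^[n] ∘ g^[m]) ⁻¹' A := by ext x; simp [B]
    rw [this]
    exact MeasurableSet.iInter fun n => MeasurableSet.iInter fun m =>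
      ((hf.measurable.iterate n).comp (hg.iterate m)) hA
  have hBae : ∀ᵐ x ∂mu, x ∈ B := by
    refine ae_all_iff.2 fun n => ae_all_iff.2 fun m => ?_
    exact ((hf.iterate n).comp (hg'.iterate m)).quasiMeasurePreserving.ae hAae
  have hBA : ∀ x ∈ B, x ∈ A := fun x hx => hx 0 0
  have hBg : ∀ x ∈ B, g x ∈ B := fun x hx n m => by
    rw [← Function.iterate_succ_apply]; exact hx n (m + 1)
  have hBf : ∀ x ∈ B, f x ∈ B := fun x hx n m => by
    cases m with
    | zero => exact hx (n + 1) 0
    | succ m =>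
      rw [Function.iterate_succ_apply, (hBA x hx).1]
      exact hx n m
  let e : ℝ ≃ᵐ ℝ :=
    { toFun := B.piecewise f id
      invFun := B.piecewise g id
      left_inv := fun x => by
        by_cases hx : x ∈ B
        · rw [piecewise_eq_of_mem _ _ _ hx, piecewise_eq_of_mem _ _ _ (hBf x hx)]
          exact (hBA x hx).1
        · rw [piecewise_eq_of_notMem _ _ _ hx, id, piecewise_eq_of_notMem _ _ _ hx, id]
      right_inv := fun x => by
        by_cases hx : x ∈ B
        · rw [piecewise_eq_of_mem _ _ _ hx, piecewise_eq_of_mem _ _ _ (hBg x hx)]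
          exact (hBA x hx).2
        · rw [piecewise_eq_of_notMem _ _ _ hx, id, piecewise_eq_of_notMem _ _ _ hx, id]
      measurable_toFun := hf.measurable.piecewise hB measurable_id
      measurable_invFun := hg.piecewise hB measurable_id }
  have he : ⇑e =ᵐ[mu] f := hBae.mono fun x hx => piecewise_eq_of_mem _ _ _ hx
  exact ⟨⟨e, hf.congr e.measurable he.symm⟩, he,
    hBae.mono fun x hx => piecewise_eq_of_mem _ _ _ hx⟩

theorem tendsto_koop {ι : Type} {l : Filter ι} {F : ι → ℝ → ℝ}
    (hF : ∀ i, MeasurePreserving (F i) mu mu) {f : ℝ → ℝ} (hf : MeasurePreserving f mu mu)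
    (h : Tendsto (fun i => koop (F i) (hF i) idL) l (𝓝 (koop f hf idL))) (v : H) :
    Tendsto (fun i => koop (F i) (hF i) v) l (𝓝 (koop f hf v)) := by
  rw [Metric.tendsto_nhds] at h ⊢
  intro ε hε
  obtain ⟨w, ⟨g, hwg, hg1, hg2⟩, hw⟩ := (Lp.dense_hasCompactSupport_contDiff (F := ℝ) (μ := mu)
    (p := 2) (by simp)).exists_dist_lt v (show 0 < ε / 3 by positivity)
  obtain ⟨C, hC⟩ := hg2.lipschitzWith_of_hasCompactSupport hg1 (by simp)
  filter_upwards [h (ε / 3 / (C + 1)) (by positivity)] with i hi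
  have h1 : dist (koop (F i) (hF i) w) (koop f hf w) ≤
      C * dist (koop (F i) (hF i) idL) (koop f hf idL) := by
    rw [dist_eq_norm, dist_eq_norm]
    refine Lp.norm_le_mul_norm_of_ae_le_mul ?_
    filter_upwards [Lp.coeFn_sub (koop (F i) (hF i) w) (koop f hf w),
      Lp.coeFn_sub (koop (F i) (hF i) idL) (koop f hf idL), koop_ae (hF i) w hwg,
      koop_ae hf w hwg, koop_id (hF i), koop_id hf] with x e1 e2 e3 e4 e5 e6
    rw [e1, e2, Pi.sub_apply, Pi.sub_apply, e3, e4, e5, e6, ← dist_eq_norm, ← dist_eq_norm]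
    exact hC.dist_le_mul _ _
  have h2 := (koop (F i) (hF i)).dist_map v w
  have h3 := (koop f hf).dist_map w v
  have h4 := dist_triangle4 (koop (F i) (hF i) v) (koop (F i) (hF i) w) (koop f hf w)
    (koop f hf v)
  have h5 : (C : ℝ) * dist (koop (F i) (hF i) idL) (koop f hf idL) ≤ ε / 3 := by
    have h6 : (C : ℝ) * dist (koop (F i) (hF i) idL) (koop f hf idL) ≤
        (C + 1) * (ε / 3 / (C + 1)) := by
      gcongr
      linarith
    rwa [mul_div_cancel₀ _ (by positivity)] at h6
  rw [dist_comm w v] at h3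
  linarith

/-- the embedding in the square of the Hilbert space -/
noncomputable def phi (S : G) : H × H := (koop S.1 S.2 idL, koop S.1.symm (S.2.symm S.1) idL)

theorem mp_of_tendsto {F : ℕ → ℝ → ℝ} (hF : ∀ i, MeasurePreserving (F i) mu mu) {u : H}
    (h : Tendsto (fun i => koop (F i) (hF i) idL) atTop (𝓝 u)) :
    MeasurePreserving u mu mu := by
  have hum : Measurable (u : ℝ → ℝ) := (Lp.stronglyMeasurable u).measurable
  refine ⟨hum, ext_of_forall_integral_eq_of_IsFiniteMeasure fun b => ?_⟩
  obtain ⟨ns, -, hns⟩ := (tendstoInMeasure_of_tendsto_Lp h).exists_seq_tendsto_ae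
  rw [integral_map hum.aemeasurable b.continuous.aestronglyMeasurable]
  have h1 : Tendsto (fun i => ∫ x, b (F (ns i) x) ∂mu) atTop (𝓝 (∫ x, b (u x) ∂mu)) := by
    refine tendsto_integral_of_dominated_convergence (fun _ => ‖b‖)
      (fun i => (b.continuous.measurable.comp (hF _).measurable).aestronglyMeasurable)
      (integrable_const _) (fun i => Eventually.of_forall fun x => b.norm_coe_le_norm _) ?_
    filter_upwards [hns, ae_all_iff.2 fun i => koop_id (hF i)] with x hx hx2
    refine (b.continuous.tendsto _).comp (hx.congr fun i => hx2 _)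
  have h2 : ∀ i, ∫ x, b (F (ns i) x) ∂mu = ∫ x, b x ∂mu := fun i => by
    rw [← integral_map (hF _).measurable.aemeasurable b.continuous.aestronglyMeasurable,
      (hF _).map_eq]
  simp only [h2] at h1
  exact tendsto_nhds_unique h1 tendsto_const_nhds

theorem isClosed_range_phi : IsClosed (range phi) := by
  refine isSeqClosed_iff_isClosed.1 fun x p hx hp => ?_
  choose S hS using hx
  have h1 : Tendsto (fun n => koop (S n).1 (S n).2 idL) atTop (𝓝 p.1) := by
    have := (continuous_fst.tendsto p).comp hp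
    refine this.congr fun n => ?_
    simp [← hS n, phi]
  have h2 : Tendsto (fun n => koop (S n).1.symm ((S n).2.symm (S n).1) idL) atTop (𝓝 p.2) := by
    have := (continuous_snd.tendsto p).comp hp
    refine this.congr fun n => ?_
    simp [← hS n, phi]
  have hf := mp_of_tendsto (fun n => (S n).2) h1
  have e1 : koop p.1 hf idL = p.1 := Lp.ext (koop_id hf)
  have h3 := tendsto_koop (fun n => (S n).2) hf (by rwa [e1]) p.2
  have h4 : Tendsto (fun n => koop (S n).1 (S n).2 p.2) atTop (𝓝 idL) := by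
    rw [tendsto_iff_dist_tendsto_zero] at h2 ⊢
    refine h2.congr fun n => ?_
    rw [← (koop (S n).1 (S n).2).dist_map, koop_inv, dist_comm]
  have e2 := tendsto_nhds_unique h3 h4
  have h5 : ∀ᵐ x ∂mu, p.2 (p.1 x) = x := by
    filter_upwards [koop_ae hf p.2 (ae_eq_refl _), memLp_id.coeFn_toLp] with x hx hx2
    rw [e2] at hx
    exact hx.symm.trans hx2
  obtain ⟨e, he1, he2⟩ := realize hf (Lp.stronglyMeasurable p.2).measurable h5
  exact ⟨e, Prod.ext (Lp.ext ((koop_id _).trans he1)) (Lp.ext ((koop_id _).trans he2))⟩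

/-- the weak topology -/
@[reducible] noncomputable def tau : TopologicalSpace G :=
  ⨅ (A : Set ℝ) (_ : MeasurableSet A) (B : Set ℝ) (_ : MeasurableSet B),
    TopologicalSpace.induced (fun T : G => (mu ((⇑T.1) ⁻¹' A ∩ B)).toReal)
      (inferInstance : TopologicalSpace ℝ)

theorem isClosed_cont {X E : Type} [TopologicalSpace X] [PseudoMetricSpace E] (Φ : X → E → ℝ)
    (C : ℝ) (h : ∀ x a b, dist (Φ x a) (Φ x b) ≤ C * dist a b) :
    IsClosed {a | Continuous fun x => Φ x a} := by
  refine isSeqClosed_iff_isClosed.1 fun a p ha hp => ?_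
  refine TendstoUniformly.continuous (F := fun n x => Φ x (a n)) (p := atTop) ?_
    (Frequently.of_forall ha)
  rw [Metric.tendstoUniformly_iff]
  intro ε hε
  have h1 : Tendsto (fun n => C * dist p (a n)) atTop (𝓝 (C * dist p p)) :=
    (tendsto_const_nhds.dist hp).const_mul C
  rw [dist_self, mul_zero] at h1
  filter_upwards [h1.eventually (gt_mem_nhds hε)] with n hn x
  exact (h x _ _).trans_lt hn

theorem inner_koop_ind (S : G) {A B : Set ℝ} (hA : MeasurableSet A) (hB : MeasurableSet B)
    (a b : ℝ) : ⟪koop S.1 S.2 (indicatorConstLp 2 hA (measure_ne_top _ _) a),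
      indicatorConstLp 2 hB (measure_ne_top mu _) b⟫ =
      (mu ((⇑S.1) ⁻¹' A ∩ B)).toReal * (b * a) := by
  have : koop S.1 S.2 (indicatorConstLp 2 hA (measure_ne_top _ _) a) =
      indicatorConstLp 2 (hA.preimage S.1.measurable) (measure_ne_top _ _) a := rfl
  rw [this, L2.inner_indicatorConstLp_indicatorConstLp]
  simp [Measure.real]

theorem cont_inner (f g : H) : Continuous[tau, _] fun S : G => ⟪koop S.1 S.2 f, g⟫ := by
  letI := tau
  refine Lp.induction (p := 2) (by simp)
    (fun f : H => Continuous fun S : G => ⟪koop S.1 S.2 f, g⟫) ?_ ?_ ?_ f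
  · intro a A hA _
    refine Lp.induction (p := 2) (by simp) (fun g : H => Continuous fun S : G =>
      ⟪koop S.1 S.2 (indicatorConstLp 2 hA (measure_ne_top mu _) a), g⟫) ?_ ?_ ?_ g
    · intro b B hB _
      simp only [Lp.simpleFunc.coe_indicatorConst, inner_koop_ind]
      refine Continuous.mul ?_ continuous_const
      exact continuous_iff_le_induced.2 (iInf_le_of_le _ (iInf_le_of_le hA
        (iInf_le_of_le _ (iInf_le_of_le hB le_rfl))))
    · intro _ _ hf hg _ h1 h2
      simp only [inner_add_right]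
      exact h1.add h2
    · refine isClosed_cont (fun (S : G) (u : H) =>
        ⟪koop S.1 S.2 (indicatorConstLp 2 hA (measure_ne_top mu _) a), u⟫)
        ‖(indicatorConstLp 2 hA (measure_ne_top mu _) a : H)‖ fun S u v => ?_
      rw [Real.dist_eq, ← inner_sub_right, dist_eq_norm]
      refine (abs_real_inner_le_norm _ _).trans ?_
      rw [LinearIsometry.norm_map]
  · intro _ _ hf hg _ h1 h2
    simp only [map_add, inner_add_left]
    exact h1.add h2
  · refine isClosed_cont (fun (S : G) (u : H) => ⟪koop S.1 S.2 u, g⟫) ‖g‖ fun S u v => ?_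
    rw [Real.dist_eq, ← inner_sub_left, dist_eq_norm, ← map_sub]
    refine (abs_real_inner_le_norm _ _).trans ?_
    rw [LinearIsometry.norm_map, mul_comm]

theorem cont_sphere {X : Type} [TopologicalSpace X] (Φ : X → H) (c : ℝ) (hc : ∀ x, ‖Φ x‖ = c)
    (h : ∀ g, Continuous fun x => ⟪Φ x, g⟫) : Continuous Φ := by
  refine continuous_iff_continuousAt.2 fun x => ?_
  rw [ContinuousAt, tendsto_iff_norm_sub_tendsto_zero]
  have h1 : Continuous fun y => Real.sqrt (c ^ 2 - 2 * ⟪Φ y, Φ x⟫ + c ^ 2) := by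
    have := h (Φ x)
    fun_prop
  have h2 : ∀ y, Real.sqrt (c ^ 2 - 2 * ⟪Φ y, Φ x⟫ + c ^ 2) = ‖Φ y - Φ x‖ := fun y => by
    rw [← Real.sqrt_sq (norm_nonneg (Φ y - Φ x)), norm_sub_sq_real, hc, hc]
  have h3 := h1.tendsto x
  simp only [h2, sub_self, norm_zero] at h3
  exact h3

theorem tau_eq : tau = TopologicalSpace.induced phi inferInstance := by
  refine le_antisymm ?_ ?_
  · letI := tau
    refine continuous_iff_le_induced.1 (Continuous.prodMk ?_ ?_)
    · exact cont_sphere _ ‖idL‖ (fun S => LinearIsometry.norm_map _ _) fun g => cont_inner _ g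
    · refine cont_sphere _ ‖idL‖ (fun S => LinearIsometry.norm_map _ _) fun g => ?_
      refine (cont_inner g idL).congr fun S => ?_
      rw [← (koop S.1 S.2).inner_map_map (koop S.1.symm _ idL), koop_inv, real_inner_comm]
  · letI : TopologicalSpace G := TopologicalSpace.induced phi inferInstance
    refine le_iInf fun A => le_iInf fun hA => le_iInf fun B => le_iInf fun hB => ?_
    refine continuous_iff_le_induced.1 ?_
    have h0 : Continuous phi := continuous_induced_dom
    have h1 : Continuous fun S : G =>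
        koop S.1 S.2 (indicatorConstLp 2 hA (measure_ne_top _ _) (1 : ℝ)) :=
      continuous_iff_continuousAt.2 fun S =>
        tendsto_koop (fun T : G => T.2) S.2 ((continuous_fst.comp h0).tendsto S) _
    have h2 := h1.inner (𝕜 := ℝ)
      (continuous_const (y := (indicatorConstLp 2 hB (measure_ne_top mu _) (1 : ℝ) : H)))
    simpa only [inner_koop_ind, mul_one] using h2

theorem not_meagre : ¬ @IsMeagre G tau univ := by
  rw [tau_eq]
  letI : PseudoMetricSpace G := PseudoMetricSpace.induced phi inferInstance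
  have hu : IsUniformInducing phi := ⟨rfl⟩
  haveI : CompleteSpace G := hu.completeSpace isClosed_range_phi.isComplete
  haveI : Nonempty G := ⟨⟨MeasurableEquiv.refl ℝ, MeasurePreserving.id mu⟩⟩
  intro h
  have := (dense_of_mem_residual h).nonempty
  simp at this

theorem isCompact_preimage {C : Set (H × H)} (hC : IsCompact C) :
    @IsCompact G tau (phi ⁻¹' C) := by
  rw [tau_eq]
  letI : TopologicalSpace G := TopologicalSpace.induced phi inferInstance
  exact (⟨rfl⟩ : IsInducing phi).isCompact_preimage isClosed_range_phi hC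

end Pool.Agent.H.MP_a7cd30_an
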