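import Mathlib
import Pool.Agent.H.MP_a7cd30_an.A

namespace Pool.Agent.H.MP_a7cd30_an

open MeasureTheory Set Filter Topology ProbabilityTheory

theorem cdf_mp (ν : Measure ℝ) [IsProbabilityMeasure ν] (hν : ∀ y, ν {y} = 0) :
    MeasurePreserving (cdf ν) ν mu := by
  have hmono := monotone_cdf ν
  have hcont : Continuous (cdf ν) := by
    refine continuous_iff_continuousAt.2 fun x => ?_
    rw [hmono.continuousAt_iff_leftLim_eq_rightLim, StieltjesFunction.rightLim_eq]
    have h1 := (cdf ν).measure_singleton x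
    rw [measure_cdf, hν] at h1
    have h2 := ENNReal.ofReal_eq_zero.1 h1.symm
    have h3 := hmono.leftLim_le (le_refl x)
    linarith
  refine ⟨hmono.measurable, Measure.ext_of_Iic _ _ fun t => ?_⟩
  rw [Measure.map_apply hmono.measurable measurableSet_Iic,
    Measure.restrict_apply measurableSet_Iic]
  rcases lt_or_ge t 0 with ht | ht
  · have e1 : cdf ν ⁻¹' Iic t = ∅ :=
      eq_empty_of_forall_notMem fun y hy => absurd ((cdf_nonneg ν y).trans hy) (not_le.2 ht)
    have e2 : Iic t ∩ Icc (0 : ℝ) 1 = ∅ :=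
      eq_empty_of_forall_notMem fun y hy => absurd (hy.2.1.trans hy.1) (not_le.2 ht)
    rw [e1, e2]; simp
  rcases le_or_gt 1 t with ht1 | ht1
  · have e1 : cdf ν ⁻¹' Iic t = univ :=
      eq_univ_of_forall fun y => (cdf_le_one ν y).trans ht1
    have e2 : Iic t ∩ Icc (0 : ℝ) 1 = Icc 0 1 := inter_eq_right.2 fun y hy => hy.2.trans ht1
    rw [e1, e2]; simp
  have e2 : Iic t ∩ Icc (0 : ℝ) 1 = Icc 0 t := by
    ext y; simp only [mem_inter_iff, mem_Iic, mem_Icc]
    constructor
    · rintro ⟨h1, h2, _⟩; exact ⟨h2, h1⟩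
    · rintro ⟨h1, h2⟩; exact ⟨h2, h1, by linarith⟩
  rw [e2, Real.volume_Icc, sub_zero]
  rcases (cdf ν ⁻¹' Iic t).eq_empty_or_nonempty with he | hne
  · rw [he, measure_empty]
    symm
    rw [ENNReal.ofReal_eq_zero]
    by_contra h
    obtain ⟨y, hy⟩ := ((tendsto_cdf_atBot ν).eventually (gt_mem_nhds (not_le.1 h))).exists
    have : y ∈ cdf ν ⁻¹' Iic t := le_of_lt hy
    rw [he] at this
    exact this
  · obtain ⟨z, hz⟩ := ((tendsto_cdf_atTop ν).eventually (lt_mem_nhds ht1)).exists
    have hb : BddAbove (cdf ν ⁻¹' Iic t) := ⟨z, fun y hy => by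
      by_contra h
      exact absurd ((hmono (not_le.1 h).le).trans hy) (not_le.2 hz)⟩
    have hcl : IsClosed (cdf ν ⁻¹' Iic t) := isClosed_Iic.preimage hcont
    have hmem := hcl.csSup_mem hne hb
    set y0 := sSup (cdf ν ⁻¹' Iic t)
    have e1 : cdf ν ⁻¹' Iic t = Iic y0 :=
      Subset.antisymm (fun y hy => le_csSup hb hy) fun y hy => (hmono hy).trans hmem
    have e3 : cdf ν y0 = t := by
      refine le_antisymm hmem ?_
      refine ge_of_tendsto (hcont.continuousWithinAt (s := Ioi y0) (x := y0)).tendsto ?_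
      filter_upwards [self_mem_nhdsWithin] with y hy
      by_contra h
      have : y ∈ cdf ν ⁻¹' Iic t := (not_le.1 h).le
      rw [e1] at this
      exact absurd (mem_Iic.1 this) (not_le.2 (mem_Ioi.1 hy))
    rw [e1, ← ofReal_cdf, e3]

theorem exists_R {ψ : ℝ → ℝ} (hψ : Measurable ψ) (hi : Function.Injective ψ) :
    ∃ R : G, ⇑R.1 =ᵐ[mu] fun x => mu.real {z | ψ z ≤ ψ x} := by
  classical
  haveI : IsProbabilityMeasure (mu.map ψ) := Measure.isProbabilityMeasure_map hψ.aemeasurable
  set ν := mu.map ψ with hν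
  have hat : ∀ y, ν {y} = 0 := fun y => by
    rw [hν, Measure.map_apply hψ (measurableSet_singleton y)]
    exact (subsingleton_singleton.preimage hi).measure_zero _
  have h1 : MeasurePreserving (cdf ν ∘ ψ) mu mu := (cdf_mp ν hat).comp ⟨hψ, rfl⟩
  have hval : ∀ x, cdf ν (ψ x) = mu.real {z | ψ z ≤ ψ x} := fun x => by
    rw [cdf_eq_real, hν, Measure.real, Measure.map_apply hψ measurableSet_Iic]; rfl
  let E : Set ℝ := ⋂ q : ℚ, {x | ψ x ≤ q} ∪ {x | cdf ν q < cdf ν (ψ x)}
  have hE : MeasurableSet E := MeasurableSet.iInter fun q =>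
    (measurableSet_le hψ measurable_const).union
      (measurableSet_lt measurable_const h1.measurable)
  have hEae : ∀ᵐ x ∂mu, x ∈ E := by
    simp only [E, mem_iInter]
    refine ae_all_iff.2 fun q => ?_
    have : ∀ᵐ y ∂mu, y ≠ cdf ν q := Measure.ae_ne _ _
    filter_upwards [h1.quasiMeasurePreserving.ae this] with x hx
    rcases le_or_gt (ψ x) q with h | h
    · exact Or.inl h
    · exact Or.inr (lt_of_le_of_ne (monotone_cdf ν h.le) (Ne.symm hx))
  have hlt : ∀ x y, y ∈ E → ψ x < ψ y → cdf ν (ψ x) < cdf ν (ψ y) := by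
    intro x y hy hxy
    obtain ⟨q, hq1, hq2⟩ := exists_rat_btwn hxy
    rcases mem_iInter.1 hy q with h | h
    · exact absurd h (not_le.2 hq2)
    · exact (monotone_cdf ν hq1.le).trans_lt h
  let R1 : ℝ → ℝ := E.piecewise (cdf ν ∘ ψ) fun x => 2 + Real.exp x
  have hR1 : Measurable R1 := h1.measurable.piecewise hE (by fun_prop)
  have hinj : Function.Injective R1 := by
    intro x y hxy
    by_cases hx : x ∈ E <;> by_cases hy : y ∈ E
    · simp only [R1, piecewise_eq_of_mem _ _ _ hx, piecewise_eq_of_mem _ _ _ hy,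
        Function.comp] at hxy
      rcases lt_trichotomy (ψ x) (ψ y) with h | h | h
      · exact absurd hxy (hlt x y hy h).ne
      · exact hi h
      · exact absurd hxy.symm (hlt y x hx h).ne
    · simp only [R1, piecewise_eq_of_mem _ _ _ hx, piecewise_eq_of_notMem _ _ _ hy,
        Function.comp] at hxy
      linarith [cdf_le_one ν (ψ x), Real.exp_pos y]
    · simp only [R1, piecewise_eq_of_notMem _ _ _ hx, piecewise_eq_of_mem _ _ _ hy,
        Function.comp] at hxy
      linarith [cdf_le_one ν (ψ y), Real.exp_pos x]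
    · simp only [R1, piecewise_eq_of_notMem _ _ _ hx, piecewise_eq_of_notMem _ _ _ hy] at hxy
      exact Real.exp_injective (add_left_cancel hxy)
  have hemb := hR1.measurableEmbedding hinj
  obtain ⟨R, hR, -⟩ := realize h1 hemb.measurable_invFun (hEae.mono fun x hx => by
    have : (cdf ν ∘ ψ) x = R1 x := (piecewise_eq_of_mem _ _ _ hx).symm
    rw [this, hemb.leftInverse_invFun])
  exact ⟨R, hR.trans (Eventually.of_forall hval)⟩

theorem cantor_convex {a b c : ℕ → Bool} {n : ℕ} (hab : ∀ k < n, a k = b k)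
    (h1 : Cardinal.cantorFunction (1 / 3) a ≤ Cardinal.cantorFunction (1 / 3) c)
    (h2 : Cardinal.cantorFunction (1 / 3) c ≤ Cardinal.cantorFunction (1 / 3) b) :
    ∀ k < n, c k = a k := by
  intro k
  induction k using Nat.strong_induction_on with
  | _ k ih =>
    intro hk
    by_contra hne
    cases hc : c k with
    | true =>
      have ha : a k = false := by rw [hc] at hne; simpa using hne
      refine absurd h2 (not_le.2 (Cardinal.increasing_cantorFunction (by norm_num) (by norm_num)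
        (n := k) (fun j hj => ?_) (by rw [← hab k hk, ha]) hc))
      rw [ih j hj (hj.trans hk), hab j (hj.trans hk)]
    | false =>
      have ha : a k = true := by rw [hc] at hne; simpa using hne
      exact absurd h1 (not_le.2 (Cardinal.increasing_cantorFunction (by norm_num) (by norm_num)
        (n := k) (fun j hj => ih j hj (hj.trans hk)) hc ha))

/-- enumeration of the coordinates -/
noncomputable def en : ℕ ≃ ℤ × ℚ := (Denumerable.eqv _).symm

/-- the itinerary -/
noncomputable def code (σ : Equiv.Perm ℝ) (x : ℝ) (n : ℕ) : Bool :=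
  decide ((σ ^ (en n).1) x ≤ ((en n).2 : ℝ))

/-- the lexicographic position -/
noncomputable def psi (σ : Equiv.Perm ℝ) (x : ℝ) : ℝ := Cardinal.cantorFunction (1 / 3) (code σ x)

theorem psi_inj (σ : Equiv.Perm ℝ) : Function.Injective (psi σ) := by
  intro x y h
  have h1 := Cardinal.cantorFunction_injective (by norm_num) (by norm_num) h
  have h2 : ∀ q : ℚ, x ≤ q ↔ y ≤ q := fun q => by
    simpa [code] using congrFun h1 (en.symm (0, q))
  rcases lt_trichotomy x y with l | l | l
  · obtain ⟨q, hq1, hq2⟩ := exists_rat_btwn l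
    exact absurd ((h2 q).1 hq1.le) (not_le.2 hq2)
  · exact l
  · obtain ⟨q, hq1, hq2⟩ := exists_rat_btwn l
    exact absurd ((h2 q).2 hq1.le) (not_le.2 hq2)

theorem measurable_zpow (S : ℝ ≃ᵐ ℝ) (i : ℤ) :
    Measurable ((S.toEquiv : Equiv.Perm ℝ) ^ i : Equiv.Perm ℝ) := by
  induction i using Int.induction_on with
  | zero => exact measurable_id
  | succ i ih => rw [zpow_add_one]; exact ih.comp S.measurable
  | pred i ih => rw [zpow_sub_one]; exact ih.comp S.symm.measurable

theorem psi_measurable (S : ℝ ≃ᵐ ℝ) : Measurable (psi S.toEquiv) := by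
  refine Measurable.tsum fun n => ?_
  have : (fun x => Cardinal.cantorFunctionAux (1 / 3) (code S.toEquiv x) n) = fun x =>
      if ((S.toEquiv : Equiv.Perm ℝ) ^ (en n).1 : Equiv.Perm ℝ) x ≤ ((en n).2 : ℝ)
        then (1 / 3 : ℝ) ^ n else 0 := by
    funext x
    simp only [Cardinal.cantorFunctionAux, code]
    split_ifs with h <;> simp [h]
  rw [this]
  exact Measurable.ite (measurableSet_le (measurable_zpow S _) measurable_const)
    measurable_const measurable_const

/-- depth that resolves the grid -/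
noncomputable def depth (k : ℕ) : ℕ :=
  (Finset.range (k + 2)).sup (fun i => en.symm (0, (i : ℚ) / (k + 1))) + 1

/-- depth that resolves the shifted coordinates -/
noncomputable def depth' (k : ℕ) : ℕ :=
  (Finset.range (depth k)).sup (fun n => max (en.symm ((en n).1 + 1, (en n).2))
    (en.symm ((en n).1 + -1, (en n).2))) + 1

theorem close_of_code (σ : Equiv.Perm ℝ) (k : ℕ) {x z : ℝ} (hx : x ∈ Icc (0 : ℝ) 1)
    (h : ∀ n < depth k, code σ x n = code σ z n) : z ≤ x + 1 / (k + 1) ∨ 1 < z := by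
  by_contra hcon
  push Not at hcon
  have hk : (0 : ℝ) < k + 1 := by positivity
  set i := ⌈x * (k + 1)⌉₊ with hi
  have h1 : x * (k + 1) ≤ i := Nat.le_ceil _
  have h2 : (i : ℝ) < x * (k + 1) + 1 := Nat.ceil_lt_add_one (mul_nonneg hx.1 hk.le)
  have h3 : i < k + 2 := by
    have : (i : ℝ) < k + 2 := by nlinarith [hx.2]
    exact_mod_cast this
  have h4 := h (en.symm (0, (i : ℚ) / (k + 1))) (Nat.lt_succ_of_le
    (Finset.le_sup (f := fun i : ℕ => en.symm (0, (i : ℚ) / (k + 1))) (Finset.mem_range.2 h3)))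
  simp only [code, Equiv.apply_symm_apply, zpow_zero, Equiv.Perm.coe_one, id_eq,
    decide_eq_decide] at h4
  push_cast at h4
  have h5 := h4.1 (by rwa [le_div_iff₀ hk])
  rw [le_div_iff₀ hk] at h5
  have h6 := mul_lt_mul_of_pos_right hcon.1 hk
  rw [add_mul, one_div_mul_cancel hk.ne'] at h6
  linarith

theorem code_shift (σ : Equiv.Perm ℝ) (k : ℕ) {j : ℤ} (hj : j = 1 ∨ j = -1) {x z : ℝ}
    (h : ∀ n < depth' k, code σ x n = code σ z n) :
    ∀ n < depth k, code σ ((σ ^ j) x) n = code σ ((σ ^ j) z) n := by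
  intro n hn
  have h1 := h (en.symm ((en n).1 + j, (en n).2)) (Nat.lt_succ_of_le (le_trans ?_
    (Finset.le_sup (f := fun n => max (en.symm ((en n).1 + 1, (en n).2))
      (en.symm ((en n).1 + -1, (en n).2))) (Finset.mem_range.2 hn))))
  · simpa [code, zpow_add] using h1
  · rcases hj with rfl | rfl
    · exact le_max_left _ _
    · exact le_max_right _ _

theorem R_close (S : ℝ ≃ᵐ ℝ) (k : ℕ) {y y' : ℝ} (hy : y ∈ Icc (0 : ℝ) 1)
    (h : ∀ n < depth k, code S.toEquiv y n = code S.toEquiv y' n) :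
    |mu.real {z | psi S.toEquiv z ≤ psi S.toEquiv y} -
      mu.real {z | psi S.toEquiv z ≤ psi S.toEquiv y'}| ≤ 2 / (k + 1) := by
  have key : ∀ a b : ℝ, (∀ n < depth k, code S.toEquiv a n = code S.toEquiv y n) →
      (∀ n < depth k, code S.toEquiv b n = code S.toEquiv y n) →
      mu.real {z | psi S.toEquiv z ≤ psi S.toEquiv b} -
      mu.real {z | psi S.toEquiv z ≤ psi S.toEquiv a} ≤ 2 / (k + 1) := by
    intro a b ha hb
    have h1 : {z | psi S.toEquiv z ≤ psi S.toEquiv b} ≤ᵐ[mu]
        (({z | psi S.toEquiv z ≤ psi S.toEquiv a} ∪ Icc (y - 1 / (k + 1)) (y + 1 / (k + 1)) :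
          Set ℝ)) := by
      filter_upwards [ae_unit] with z hz hzb
      rcases le_total (psi S.toEquiv z) (psi S.toEquiv a) with hza | hza
      · exact Or.inl hza
      · have h2 := cantor_convex (n := depth k)
          (fun n hn => (ha n hn).trans (hb n hn).symm) hza hzb
        have h3 : ∀ n < depth k, code S.toEquiv z n = code S.toEquiv y n :=
          fun n hn => (h2 n hn).trans (ha n hn)
        refine Or.inr ⟨?_, ?_⟩
        · rcases close_of_code _ k hz h3 with h4 | h4
          · linarith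
          · exact absurd h4 (not_lt.2 hy.2)
        · rcases close_of_code _ k hy (fun n hn => (h3 n hn).symm) with h4 | h4
          · exact h4
          · exact absurd h4 (not_lt.2 hz.2)
    have h2 := ENNReal.toReal_mono (measure_ne_top _ _) (measure_mono_ae h1)
    have h3 := measureReal_union_le (μ := mu) {z | psi S.toEquiv z ≤ psi S.toEquiv a}
      (Icc (y - 1 / (k + 1)) (y + 1 / (k + 1)))
    have h4 : mu.real (Icc (y - 1 / (k + 1)) (y + 1 / (k + 1))) ≤ 2 / (k + 1) := by
      have h5 := ENNReal.toReal_mono (by simp) (Measure.restrict_le_self (μ := volume)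
        (s := Icc (0 : ℝ) 1) (Icc (y - 1 / (k + 1)) (y + 1 / (k + 1))))
      rw [Real.volume_Icc, ENNReal.toReal_ofReal (by
        have : (0 : ℝ) < 1 / (k + 1) := by positivity
        linarith)] at h5
      refine h5.trans (le_of_eq ?_)
      ring
    simp only [Measure.real] at h3 h4 ⊢
    linarith
  rw [abs_le]
  have h1 := key y y' (fun _ _ => rfl) fun n hn => (h n hn).symm
  have h2 := key y' y (fun n hn => (h n hn).symm) fun _ _ => rfl
  constructor <;> linarith

/-- step functions -/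
noncomputable def step (N : ℕ) (p : (Fin N → Bool) → ℝ × ℝ × ℝ) : H :=
  ∑ w, (p w).2.2 • indicatorConstLp 2 (measurableSet_Ioo (a := (p w).1) (b := (p w).2.1))
    (measure_ne_top mu _) (1 : ℝ)

theorem cont_ind : Continuous fun p : ℝ × ℝ =>
    (indicatorConstLp 2 (measurableSet_Ioo (a := p.1) (b := p.2))
      (measure_ne_top mu _) (1 : ℝ) : H) := by
  refine continuous_indicatorConstLp_set (by simp) fun p => ?_
  have h1 : Tendsto (fun q : ℝ × ℝ => ENNReal.ofReal (2 * |q.1 - p.1|) +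
      ENNReal.ofReal (2 * |q.2 - p.2|)) (𝓝 p) (𝓝 0) := by
    have : Continuous fun q : ℝ × ℝ => ENNReal.ofReal (2 * |q.1 - p.1|) +
      ENNReal.ofReal (2 * |q.2 - p.2|) :=
      (ENNReal.continuous_ofReal.comp (by fun_prop)).add
        (ENNReal.continuous_ofReal.comp (by fun_prop))
    simpa using this.tendsto p
  refine tendsto_of_tendsto_of_tendsto_of_le_of_le tendsto_const_nhds h1 (fun _ => zero_le)
    fun q => ?_
  have hsub : symmDiff (Ioo q.1 q.2) (Ioo p.1 p.2) ⊆
      Metric.closedBall p.1 |q.1 - p.1| ∪ Metric.closedBall p.2 |q.2 - p.2| := by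
    intro x hx
    simp only [mem_symmDiff, mem_Ioo, not_and_or, not_lt] at hx
    simp only [mem_union, Metric.mem_closedBall, Real.dist_eq, abs_le]
    have a1 := le_abs_self (q.1 - p.1)
    have a2 := neg_abs_le (q.1 - p.1)
    have a3 := le_abs_self (q.2 - p.2)
    have a4 := neg_abs_le (q.2 - p.2)
    rcases hx with ⟨⟨h1, h2⟩, h3 | h3⟩ | ⟨⟨h1, h2⟩, h3 | h3⟩
    · left; constructor <;> linarith
    · right; constructor <;> linarith
    · left; constructor <;> linarith
    · right; constructor <;> linarith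
  refine (Measure.restrict_le_self _).trans ((measure_mono hsub).trans
    ((measure_union_le _ _).trans ?_))
  rw [Real.volume_closedBall, Real.volume_closedBall]

theorem cont_step (N : ℕ) : Continuous (step N) := by
  refine continuous_finsetSum _ fun w _ => Continuous.smul
    (f := fun p : (Fin N → Bool) → ℝ × ℝ × ℝ => (p w).2.2) (by fun_prop) ?_
  exact cont_ind.comp (f := fun p : (Fin N → Bool) → ℝ × ℝ × ℝ => ((p w).1, (p w).2.1))
    (by fun_prop)

/-- the compact set -/
def K0 : Set H := ⋂ k : ℕ, Metric.cthickening (2 / (k + 1)) (step (depth' k) '' Icc 0 1)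

theorem isCompact_K0 : IsCompact K0 := by
  refine isCompact_iff_totallyBounded_isComplete.2 ⟨?_,
    (isClosed_iInter fun k => Metric.isClosed_cthickening).isComplete⟩
  rw [Metric.totallyBounded_iff]
  intro ε hε
  obtain ⟨k, hk⟩ := exists_nat_one_div_lt (show 0 < ε / 4 by positivity)
  obtain ⟨t, ht, hcov⟩ := Metric.totallyBounded_iff.1
    (isCompact_Icc.image (cont_step (depth' k)) :
      IsCompact (step (depth' k) '' Icc 0 1)).totallyBounded (ε / 2) (by positivity)
  refine ⟨t, ht, fun u hu => ?_⟩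
  have h1 := Metric.cthickening_subset_thickening' (δ₂ := ε / 2) (by positivity)
    (show (2 : ℝ) / (k + 1) < ε / 2 by
      have : (2 : ℝ) / (k + 1) = 2 * (1 / (k + 1)) := by ring
      linarith) _ (mem_iInter.1 hu k)
  obtain ⟨v, hv, hd⟩ := Metric.mem_thickening_iff.1 h1
  obtain ⟨y, hy, hd2⟩ := mem_iUnion₂.1 (hcov hv)
  refine mem_iUnion₂.2 ⟨y, hy, ?_⟩
  have := dist_triangle u v y
  rw [Metric.mem_ball] at hd2 ⊢
  linarith

theorem mem_K0 (S R : G)
    (hR : ⇑R.1 =ᵐ[mu] fun x => mu.real {z | psi S.1.toEquiv z ≤ psi S.1.toEquiv x})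
    {j : ℤ} (hj : j = 1 ∨ j = -1) {U : ℝ → ℝ} (hU : MeasurePreserving U mu mu)
    (hUj : ∀ x, U x = ((S.1.toEquiv : Equiv.Perm ℝ) ^ j : Equiv.Perm ℝ) x)
    (u : H) (hu : u =ᵐ[mu] fun y => R.1 (U (R.1.symm y))) : u ∈ K0 := by
  classical
  set σ : Equiv.Perm ℝ := S.1.toEquiv with hσ
  set F : ℝ → ℝ := fun x => mu.real {z | psi σ z ≤ psi σ x} with hF
  have hF0 : ∀ x, 0 ≤ F x := fun x => measureReal_nonneg
  have hF1 : ∀ x, F x ≤ 1 := fun x => measureReal_le_one
  have hFm : ∀ x y, F x < F y → psi σ x ≤ psi σ y := fun x y h => by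
    by_contra hcon
    exact absurd h (not_lt.2 (measureReal_mono fun z hz => le_trans hz (not_le.1 hcon).le))
  refine mem_iInter.2 fun k => ?_
  set N := depth' k with hN
  let pat : ℝ → Fin N → Bool := fun x n => code σ x n
  let p : (Fin N → Bool) → ℝ × ℝ × ℝ := fun w =>
    (sInf (F '' (pat ⁻¹' {w})), sSup (F '' (pat ⁻¹' {w})), F (U (Function.invFun pat w)))
  have hbb : ∀ w, BddBelow (F '' (pat ⁻¹' {w})) := fun w => ⟨0, by
    rintro _ ⟨x, _, rfl⟩; exact hF0 x⟩
  have hba : ∀ w, BddAbove (F '' (pat ⁻¹' {w})) := fun w => ⟨1, by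
    rintro _ ⟨x, _, rfl⟩; exact hF1 x⟩
  have hp : p ∈ Icc 0 1 := by
    refine ⟨fun w => ⟨?_, ?_, hF0 _⟩, fun w => ⟨?_, ?_, hF1 _⟩⟩
    · exact Real.sInf_nonneg (by rintro _ ⟨x, _, rfl⟩; exact hF0 x)
    · exact Real.sSup_nonneg (by rintro _ ⟨x, _, rfl⟩; exact hF0 x)
    · rcases (F '' (pat ⁻¹' {w})).eq_empty_or_nonempty with h | ⟨_, x, hx, rfl⟩
      · simp [p, h]
      · exact (csInf_le (hbb w) ⟨x, hx, rfl⟩).trans (hF1 x)
    · exact Real.sSup_le (by rintro _ ⟨x, _, rfl⟩; exact hF1 x) zero_le_one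
  refine Metric.mem_cthickening_of_dist_le u (step N p) _ _ ⟨p, hp, rfl⟩ ?_
  have hstep : step N p =ᵐ[mu] fun y =>
      ∑ w, (p w).2.2 * (Ioo (p w).1 (p w).2.1).indicator (fun _ => (1 : ℝ)) y := by
    refine (Lp.coeFn_fun_finsetSum _ _).trans ?_
    have : ∀ w, ((p w).2.2 • indicatorConstLp 2 (measurableSet_Ioo (a := (p w).1) (b := (p w).2.1))
        (measure_ne_top mu _) (1 : ℝ) : H) =ᵐ[mu] fun y =>
        (p w).2.2 * (Ioo (p w).1 (p w).2.1).indicator (fun _ => (1 : ℝ)) y := fun w => by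
      filter_upwards [Lp.coeFn_smul (p w).2.2 (indicatorConstLp 2
        (measurableSet_Ioo (a := (p w).1) (b := (p w).2.1)) (measure_ne_top mu _) (1 : ℝ) : H),
        indicatorConstLp_coeFn (p := 2) (hs := measurableSet_Ioo (a := (p w).1) (b := (p w).2.1))
          (hμs := measure_ne_top mu _) (c := (1 : ℝ))] with y h1 h2
      rw [h1, Pi.smul_apply, h2, smul_eq_mul]
    filter_upwards [ae_all_iff.2 this] with y hy
    exact Finset.sum_congr rfl fun w _ => hy w
  have hmain : ∀ᵐ x ∂mu, |R.1 (U x) -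
      ∑ w, (p w).2.2 * (Ioo (p w).1 (p w).2.1).indicator (fun _ => (1 : ℝ)) (R.1 x)|
        ≤ 2 / (k + 1) := by
    have hne : ∀ᵐ y ∂mu, ∀ w, y ≠ (p w).1 ∧ y ≠ (p w).2.1 :=
      ae_all_iff.2 fun w => (Measure.ae_ne _ _).and (Measure.ae_ne _ _)
    filter_upwards [hR, hU.quasiMeasurePreserving.ae hR, hU.quasiMeasurePreserving.ae ae_unit,
      R.2.quasiMeasurePreserving.ae hne] with x h1 h2 h3 h4
    rw [h1] at h4
    rw [h1, h2, Finset.sum_eq_single (pat x)]
    · have hin : F x ∈ Ioo (p (pat x)).1 (p (pat x)).2.1 :=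
        ⟨lt_of_le_of_ne (csInf_le (hbb _) ⟨x, rfl, rfl⟩) (h4 _).1.symm,
          lt_of_le_of_ne (le_csSup (hba _) ⟨x, rfl, rfl⟩) (h4 _).2⟩
      rw [indicator_of_mem hin, mul_one]
      refine R_close S.1 k h3 ?_
      rw [hUj, hUj]
      refine code_shift σ k hj fun n hn => ?_
      have : pat (Function.invFun pat (pat x)) = pat x := Function.invFun_eq ⟨x, rfl⟩
      exact (congrFun this ⟨n, hn⟩).symm
    · intro w _ hw
      rw [indicator_of_notMem, mul_zero]
      rintro ⟨h5, h6⟩
      rcases (F '' (pat ⁻¹' {w})).eq_empty_or_nonempty with he | hne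
      · simp only [p, he, Real.sInf_empty, Real.sSup_empty] at h5 h6
        linarith
      · obtain ⟨_, ⟨a, ha, rfl⟩, ha2⟩ := exists_lt_of_csInf_lt hne h5
        obtain ⟨_, ⟨b, hb, rfl⟩, hb2⟩ := exists_lt_of_lt_csSup hne h6
        have ha' : pat a = w := ha
        have hb' : pat b = w := hb
        have h7 := cantor_convex (n := N) (a := code σ a) (b := code σ b) (c := code σ x)
          (fun n hn => congrFun (ha'.trans hb'.symm) ⟨n, hn⟩) (hFm _ _ ha2) (hFm _ _ hb2)
        exact hw (ha'.symm.trans (funext fun n => (h7 n n.2).symm))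
    · intro h; exact absurd (Finset.mem_univ _) h
  rw [dist_eq_norm]
  refine (Lp.norm_le_of_ae_bound (C := 2 / (k + 1)) (by positivity) ?_).trans ?_
  · filter_upwards [Lp.coeFn_sub u (step N p), hu, hstep,
      (R.2.symm R.1).quasiMeasurePreserving.ae hmain] with y h1 h2 h3 h4
    rw [h1, Pi.sub_apply, h2, h3, Real.norm_eq_abs]
    simpa only [MeasurableEquiv.apply_symm_apply] using h4
  · simp [measureUnivNNReal]

theorem conj_mem (S : G) : ∃ R T : G, T ∈ phi ⁻¹' (K0 ×ˢ K0) ∧
    ⇑S.1 = fun x => R.1.symm (T.1 (R.1 x)) := by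
  obtain ⟨R, hR⟩ := exists_R (psi_measurable S.1) (psi_inj _)
  refine ⟨R, ⟨R.1.symm.trans (S.1.trans R.1), (R.2.comp S.2).comp (R.2.symm R.1)⟩,
    ⟨?_, ?_⟩, ?_⟩
  · exact mem_K0 S R hR (Or.inl rfl) S.2 (fun x => by simp) _ (koop_id _)
  · exact mem_K0 S R hR (Or.inr rfl) (S.2.symm S.1) (fun x => by simp) _ (koop_id _)
  · funext x; simp

end Pool.Agent.H.MP_a7cd30_an
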